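import Pool.Agent.H20.T4.Stm2
import Pool.Agent.H9.TC.Basic

/-!
Project TM4 (MP_b6022c_nt), row CC: one tuple of shifts in a good cell.
-/

namespace Pool.Agent.H20.T4

open Finset Pool.Agent.H9.TC Pool.Agent.H20.TM

theorem cc_sum {S : ℕ} {P : ℕ → Prop} {A : ℕ → ℝ} {α β : ℝ} (hα : 0 ≤ α)
    (h1 : ∀ s < S, ¬ P s → A s ≤ α) (h2 : ∀ s < S, P s → A s ≤ β) :
    ∑ s ∈ range S, A s ≤ α * S + β * cnt S P := by
  classical
  have h3 : ∀ s ∈ range S, A s ≤ α + if P s then β else 0 := by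
    intro s hs
    rw [mem_range] at hs
    by_cases hp : P s
    · rw [if_pos hp]
      linarith [h2 s hs hp]
    · rw [if_neg hp]
      linarith [h1 s hs hp]
  refine (sum_le_sum h3).trans (le_of_eq ?_)
  rw [sum_add_distrib, sum_const, card_range, nsmul_eq_mul, ← sum_filter, sum_const, nsmul_eq_mul]
  unfold cnt
  rw [filter_congr_decidable]
  ring

theorem cc_cnt_shift {S h : ℕ} (hh : h ≤ S) (Q : ℕ → Prop) :
    cnt S (fun s => Q (s + h)) ≤ cnt (2 * S) Q := by
  classical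
  unfold cnt
  refine card_le_card_of_injOn (fun s => s + h) ?_ ?_
  · intro s hs
    have hs' := mem_coe.1 hs
    rw [mem_filter, mem_range] at hs'
    simp only [coe_filter, mem_range, Set.mem_ofPred_eq]
    exact ⟨by omega, hs'.2⟩
  · intro s _ s' _ he
    simp only at he
    omega

theorem cc_sum_shift {X t : ℕ} (ht : t ≤ X) (F : ℕ → ℕ) :
    ∑ x ∈ range X, F (x + t) ≤ ∑ x ∈ range (2 * X), F x := by
  have h1 : ∑ x ∈ range X, F (x + t) = ∑ x ∈ Ico t (X + t), F x := by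
    rw [sum_Ico_eq_sum_range]
    refine sum_congr ?_ fun x _ => ?_
    · congr 1
      omega
    · congr 1
      omega
  rw [h1]
  refine sum_le_sum_of_subset fun x hx => ?_
  rw [mem_Ico] at hx
  rw [mem_range]
  omega

/-- double counting in the doubled box -/
theorem cc_cnt2 {S X h t : ℕ} (hh : h ≤ S) (ht : t ≤ X) (Q : ℕ → ℕ → Prop) :
    ∑ x ∈ range X, cnt S (fun s => Q (s + h) (x + t)) ≤ cnt2 (2 * S) (2 * X) Q := by
  unfold cnt2
  calc ∑ x ∈ range X, cnt S (fun s => Q (s + h) (x + t))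
      ≤ ∑ x ∈ range X, cnt (2 * S) (fun s => Q s (x + t)) :=
        sum_le_sum fun x _ => cc_cnt_shift hh (fun s => Q s (x + t))
    _ ≤ _ := cc_sum_shift ht (fun x => cnt (2 * S) (fun s => Q s x))

theorem cc_param {q p w L v1 K1 ED τ : ℕ} (hp : 1 ≤ p) (hw : w = C1 q * p)
    (hED : ED + 2000 * w ≤ v1 + K1 * p) (hτ : τ ≤ q * (2 * q + 5) * p + 1) :
    (60 * q + 60) * p ≤ 400 * w ∧ 3 * (400 * w) + (60 * q + 60) * p ≤ v1 + K1 * p ∧
    72 * w + 18 * w + ED + 2 * (400 * w) + (30 * q + 30) * p ≤ v1 + K1 * p ∧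
    2 * τ ≤ v1 + K1 * p + L + (2 * q + 4) * p := by
  have e1 : w = 6 * (q * q * p) + 30 * (q * p) + 20 * p := by rw [hw]; unfold C1; ring
  have e2 : (60 * q + 60) * p = 60 * (q * p) + 60 * p := by ring
  have e3 : (30 * q + 30) * p = 30 * (q * p) + 30 * p := by ring
  have e4 : (2 * q + 4) * p = 2 * (q * p) + 4 * p := by ring
  have e5 : q * (2 * q + 5) * p = 2 * (q * q * p) + 5 * (q * p) := by ring
  rw [e2, e3, e4]
  rw [e5] at hτ
  refine ⟨by omega, by omega, by omega, by omega⟩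

theorem cc (hGU : GUStmt) (hCM : CMStmt) (hLM : LINMStmt) : CCStmt := by
  intro q1 q c Cf Kn ε hq hc hε
  have hq0 : (0 : ℝ) < q := by exact_mod_cast hq
  refine ⟨ε / (8 * (q + 1)), by positivity, fun g1 => ?_⟩
  obtain ⟨g, L, g9, p1, hg1, hg, hL, hcm⟩ := hCM q Kn (ε / 2) hq (by positivity) g1
  obtain ⟨p2, hgu⟩ := hGU q1 q c g L g9 Kn Cf (ε / 8) hq hc hg hL (by positivity)
  refine ⟨g, L, g9, C1 q * (p1 + p2 + 1), hg1, hL, ?_⟩
  intro w hw0 kk V ν a ED D p v1 K1 K2 M τ haw hED1 hED2 hD1 hD2 hw hK1 hK2 hv1 hv2 hEDv ha hτ1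
    hτ2 hM1 hM2 d e f g' hd n0 hcell ip h t hh ht hdel
  have hC1 : 0 < C1 q := by unfold C1; positivity
  have hp : p1 + p2 + 1 ≤ p := by
    rw [hw] at hw0
    exact Nat.le_of_mul_le_mul_left hw0 hC1
  obtain ⟨par1, par2, par3, par4⟩ := cc_param (L := L) (by omega : 1 ≤ p) hw hEDv hτ2
  obtain ⟨-, hPt, hGb⟩ := hcell
  set S : ℕ := 2 ^ (400 * w) with hS
  set X : ℕ := 2 ^ (18 * w) with hX
  have hS2 : 2 ^ (400 * w + 1) = 2 * S := by rw [hS, pow_succ]; ring
  have hX2 : 2 ^ (18 * w + 1) = 2 * X := by rw [hX, pow_succ]; ring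
  have hSr : ((S : ℕ) : ℝ) = 2 ^ (400 * w) := by rw [hS]; push_cast; rfl
  have hXr : ((X : ℕ) : ℝ) = 2 ^ (18 * w) := by rw [hX]; push_cast; rfl
  have hhS : ∀ i, h i ≤ S := fun i => (hh i).trans (Nat.pow_le_pow_right (by norm_num) (by omega))
  have hM0 : (0 : ℝ) ≤ M := Nat.cast_nonneg _
  set r : Fin q → ℤ := fun i => (h i : ℤ) + D * t i with hr
  let i0 : Fin q := ⟨0, by omega⟩
  -- the base point of the column `x`
  set nx : ℕ → ℤ := fun x => (n0 : ℤ) + D * x with hnx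
  set dd : Fin q → ℤ := fun i => d (ip i) with hdd
  set ed : Fin q → ℤ := fun i => e (ip i) with hed
  set fd : Fin q → ℤ := fun i => f (ip i) with hfd
  set GenP : ℕ → ℕ → Prop := fun x s =>
    Gen p L g g9 v1 K1 K2 M τ i0 (slo c dd ed fd r (nx x) s) with hGenP
  -- the inner sums
  set I : ℕ → ℕ → ℝ := fun x s => ∑ m ∈ range M, ∏ i, TW 0 (2 * a)
    (qua c (d (ip i)) (e (ip i)) (f (ip i)) (g' (ip i))
      (n0 + s + D * x + 2 ^ a * m + (h i + D * t i))) with hI
  have hItriv : ∀ x s, |I x s| ≤ M := by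
    intro x s
    rw [hI]
    refine (abs_sum_le_sum_abs _ _).trans ?_
    calc _ ≤ ∑ m ∈ range M, (1 : ℝ) := by
          refine sum_le_sum fun m _ => ?_
          rw [abs_prod]
          exact le_of_eq (prod_eq_one fun i _ => abs_TW _ _ _)
      _ = M := by simp
  have hIlin : ∀ x s : ℕ, I x s = (∏ i, TW 0 a (qua c (d (ip i)) (e (ip i)) (f (ip i)) (g' (ip i))
      (nx x + s + r i))) * ∑ m ∈ range M, ∏ i, TW 0 a
        (qua c (d (ip i)) (e (ip i)) (f (ip i)) (g' (ip i)) (nx x + s + r i) / 2 ^ a +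
          (m : ℤ) * slo c dd ed fd r (nx x) s i) := by
    intro x s
    rw [hI, mul_sum]
    refine sum_congr rfl fun m _ => ?_
    rw [← prod_mul_distrib]
    refine prod_congr rfl fun i _ => ?_
    have e1 : (n0 : ℤ) + s + D * x + 2 ^ a * m + (h i + D * t i) =
        (nx x + s + r i) + 2 ^ a * (m : ℤ) := by
      simp only [hnx, hr]
      ring
    rw [e1, hLM]
    rfl
  have hIgen : ∀ x s : ℕ, GenP x s → |I x s| ≤ ε / 2 * M := by
    intro x s hG
    rw [hIlin, abs_mul]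
    have e1 : |∏ i, TW 0 a (qua c (d (ip i)) (e (ip i)) (f (ip i)) (g' (ip i))
        (nx x + s + r i))| = 1 := by
      rw [abs_prod]
      exact prod_eq_one fun i _ => abs_TW _ _ _
    rw [e1, one_mul]
    have := hcm p (by omega) v1 K1 K2 M τ hK1 hK2 hv1 hv2 hτ1 hτ2 par4 (by rw [← hw]; exact hM1)
      i0 (slo c dd ed fd r (nx x) s) hG (fun i =>
        qua c (d (ip i)) (e (ip i)) (f (ip i)) (g' (ip i)) (nx x + s + r i) / 2 ^ a)
    rw [ha] at this
    exact this
  -- swap the sums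
  have hswap : ∑ m ∈ range M, ∑ x ∈ range X, ∑ s ∈ range S,
      ∏ i, TW 0 (2 * a) (qua c (d (ip i)) (e (ip i)) (f (ip i)) (g' (ip i))
        (n0 + s + D * x + 2 ^ a * m + (h i + D * t i))) =
      ∑ x ∈ range X, ∑ s ∈ range S, I x s := by
    rw [sum_comm]
    refine sum_congr rfl fun x _ => ?_
    rw [sum_comm]
  rw [hswap]
  -- columns
  have hcol : ∀ x, ∑ s ∈ range S, |I x s| ≤ ε / 2 * M * S + M * cnt S (fun s => ¬ GenP x s) :=
    fun x => cc_sum (by positivity) (fun s _ hs => hIgen x s (not_not.1 hs))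
      (fun s _ _ => hItriv x s)
  have hcntS : ∀ (P : ℕ → Prop), (cnt S P : ℝ) ≤ S := fun P => by exact_mod_cast cnt_le S P
  -- the bad points of the columns
  set W : ℕ → ℝ := fun x => ∑ i : Fin q, (cnt S (fun s => ¬ Pt q p L g g9 v1 K1 K2 M τ c
    (dd i) (ed i) (fd i) (nx x + s + r i)) : ℝ) with hW
  have hW0 : ∀ x, 0 ≤ W x := fun x => sum_nonneg fun i _ => Nat.cast_nonneg _
  have hbad : ∑ x ∈ range X, ((cnt S (fun s => ¬ GenP x s) : ℝ) - W x) ≤
      (ε / 8 * S) * X + S * cnt X (fun x => ¬ Gb q p L g9 v1 K1 K2 (400 * w) (72 * w) (18 * w) c D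
        d e (n0 + D * x)) := by
    refine cc_sum (by positivity) ?_ ?_
    · intro x _ hx
      have hx' : Gb q p L g9 v1 K1 K2 (400 * w) (72 * w) (18 * w) c D d e (nx x) := not_not.1 hx
      have h5 := hgu p (by omega) v1 K1 K2 M τ (400 * w) (72 * w) (18 * w) ED D hK1 hK2 hv1 hD2
        par1 par2 par3 d e f hd (nx x) hx' ip (fun i => (h i : ℤ)) (fun i => (t i : ℤ)) r i0
        (fun i => by rw [abs_of_nonneg (by positivity)]; exact_mod_cast hh i)
        (fun i => by rw [abs_of_nonneg (by positivity)]; exact_mod_cast ht i)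
        (fun i => rfl) hdel
      have h6 : (cnt S (fun s => ¬ GenP x s) : ℝ) ≤ ε / 8 * 2 ^ (400 * w) + W x := h5
      rw [hSr]
      linarith
    · intro x _ _
      linarith [hcntS (fun s => ¬ GenP x s), hW0 x]
  have hWsum : ∑ x ∈ range X, W x ≤ q * (ε / (8 * (q + 1)) * (S * X)) := by
    rw [hW, sum_comm]
    calc ∑ i : Fin q, ∑ x ∈ range X, (cnt S (fun s => ¬ Pt q p L g g9 v1 K1 K2 M τ c
          (dd i) (ed i) (fd i) (nx x + s + r i)) : ℝ)
        ≤ ∑ i : Fin q, (ε / (8 * (q + 1)) * (S * X)) := by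
          refine sum_le_sum fun i _ => ?_
          have h5 := hPt (ip i)
          rw [hS2, hX2, ← hSr, ← hXr] at h5
          refine le_trans ?_ h5
          have h6 := cc_cnt2 (hhS i) (ht i) (fun s x => ¬ Pt q p L g g9 v1 K1 K2 M τ c
            (d (ip i)) (e (ip i)) (f (ip i)) ((n0 : ℤ) + s + D * x))
          have h7 : ∀ x ∈ range X, (cnt S (fun s => ¬ Pt q p L g g9 v1 K1 K2 M τ c
              (dd i) (ed i) (fd i) (nx x + s + r i)) : ℝ) =
              ((cnt S (fun s => ¬ Pt q p L g g9 v1 K1 K2 M τ c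
              (d (ip i)) (e (ip i)) (f (ip i))
                ((n0 : ℤ) + ((s + h i : ℕ) : ℤ) + D * ((x + t i : ℕ) : ℤ))) : ℕ) : ℝ) := by
            intro x _
            congr 1
            refine cnt_congr fun s _ => ?_
            have e1 : nx x + s + r i =
                (n0 : ℤ) + ((s + h i : ℕ) : ℤ) + D * ((x + t i : ℕ) : ℤ) := by
              simp only [hnx, hr]
              push_cast
              ring
            rw [e1]
          rw [sum_congr rfl h7]
          exact_mod_cast h6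
      _ = _ := by rw [sum_const, card_univ, Fintype.card_fin, nsmul_eq_mul]
  have hGbx : (cnt X (fun x => ¬ Gb q p L g9 v1 K1 K2 (400 * w) (72 * w) (18 * w) c D
        d e (n0 + D * x)) : ℝ) ≤ ε / (8 * (q + 1)) * X := by
    rw [hXr]
    exact hGb
  -- conclusion
  have htot : |∑ x ∈ range X, ∑ s ∈ range S, I x s| ≤
      ∑ x ∈ range X, (ε / 2 * M * S + M * cnt S (fun s => ¬ GenP x s)) := by
    refine (abs_sum_le_sum_abs _ _).trans (sum_le_sum fun x _ => ?_)
    exact (abs_sum_le_sum_abs _ _).trans (hcol x)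
  refine htot.trans ?_
  rw [sum_add_distrib, sum_const, card_range, nsmul_eq_mul, ← mul_sum]
  rw [sum_sub_distrib] at hbad
  have hS0 : (0 : ℝ) ≤ S := Nat.cast_nonneg _
  have hX0 : (0 : ℝ) ≤ X := Nat.cast_nonneg _
  have hb1 : ∑ x ∈ range X, (cnt S (fun s => ¬ GenP x s) : ℝ) ≤
      ε / 8 * S * X + S * (ε / (8 * (q + 1)) * X) + q * (ε / (8 * (q + 1)) * (S * X)) := by
    have := mul_le_mul_of_nonneg_left hGbx hS0
    linarith
  have hb2 : ε / 8 * S * X + S * (ε / (8 * (q + 1)) * X) + q * (ε / (8 * (q + 1)) * (S * X)) =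
      ε / 4 * (S * X) := by
    field_simp
    ring
  rw [hb2] at hb1
  have hb3 := mul_le_mul_of_nonneg_left hb1 hM0
  rw [← hSr, ← hXr]
  have hpos : 0 ≤ ε * (S * X * M) := by positivity
  nlinarith

end Pool.Agent.H20.T4
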