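import Pool.Agent.H20.T4.Stm
import Pool.Agent.H9.TC.Basic
import Pool.Agent.H9.TC.F1
import Pool.Agent.H9.TC.F2

/-!
Project TM4 (MP_b6022c_nt), row NB: near-boundary values of a quartic polynomial at the levels
`u <= 3ν + C'`.
-/

namespace Pool.Agent.H20.T4

open Finset Pool.Agent.H9.TC Pool.Agent.H20.TM

theorem nb_nn_eq_abs {x : ℝ} (hx : |x| ≤ 1 / 2) : nn x = |x| := by
  refine le_antisymm (nn_le_abs x) ?_
  unfold nn
  by_cases hz : round x = 0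
  · rw [hz]
    simp
  · have h1 : (1 : ℝ) ≤ |((round x : ℤ) : ℝ)| := by
      rw [← Int.cast_abs]
      exact_mod_cast Int.one_le_abs hz
    have h2 : |((round x : ℤ) : ℝ)| ≤ |x| + |x - round x| := by
      have h3 : ((round x : ℤ) : ℝ) = x - (x - round x) := by ring
      calc |((round x : ℤ) : ℝ)| = |x - (x - round x)| := by rw [← h3]
        _ ≤ _ := abs_sub _ _
    linarith

/-- detection: if all exponential sums with frequencies `0 < |h| <= 4^g` are small, then few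
values are near the boundary. -/
theorem nb_det {B g r : ℕ} {F : ℕ → ℤ} (hg : 2 ≤ g)
    (hS : ∀ h : ℤ, h ≠ 0 → |h| ≤ 4 ^ g →
      ‖∑ m ∈ range B, ee ((h : ℝ) * (F m : ℝ) / 2 ^ (g + r))‖ ≤ (1 / 2) ^ g * B) :
    (cnt B (fun m => near (g + r) ((2 : ℤ) ^ (g + r - g)) (F m)) : ℝ) ≤
      8 * ((1 / 2) ^ g * B) := by
  have hv : 1 ≤ g + r := by omega
  have hW1 : 1 ≤ 2 ^ (r + 1) := Nat.one_le_two_pow
  have hW2 : 2 ^ (r + 1) ≤ 2 ^ (g + r - 1) := Nat.pow_le_pow_right (by norm_num) (by omega)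
  obtain ⟨-, f0, f1, -, fhalf, fh0, fhz⟩ := f1 (g + r) (2 ^ (r + 1)) hv hW1 hW2
  obtain ⟨finv, fmass, ftail⟩ := f2 (g + r) (2 ^ (r + 1)) hv hW1 hW2
  set N : ℤ → ℝ := fun a => ‖∑ m ∈ range B, ee ((a : ℝ) * (F m : ℝ) / 2 ^ (g + r))‖ with hN
  have hNM : ∀ a, N a ≤ B := by
    intro a
    refine (norm_sum_le _ _).trans ?_
    simp [norm_ee]
  have hM0 : (0 : ℝ) ≤ B := Nat.cast_nonneg _
  -- Fourier expansion
  have hsum : ∑ m ∈ range B, Fj (g + r) (2 ^ (r + 1)) (F m) ≤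
      ∑ a ∈ reps (g + r), Fh (g + r) (2 ^ (r + 1)) a * N a := by
    have e1 : ((∑ m ∈ range B, Fj (g + r) (2 ^ (r + 1)) (F m) : ℝ) : ℂ) =
        ∑ a ∈ reps (g + r), (Fh (g + r) (2 ^ (r + 1)) a : ℂ) *
          (∑ m ∈ range B, ee ((a : ℝ) * (F m : ℝ) / 2 ^ (g + r))) := by
      push_cast
      rw [sum_congr rfl fun (m : ℕ) _ => finv (F m), sum_comm]
      refine sum_congr rfl fun a _ => ?_
      rw [← mul_sum]
    have e2 : ‖((∑ m ∈ range B, Fj (g + r) (2 ^ (r + 1)) (F m) : ℝ) : ℂ)‖ =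
        ∑ m ∈ range B, Fj (g + r) (2 ^ (r + 1)) (F m) := by
      rw [Complex.norm_real, Real.norm_eq_abs, abs_of_nonneg (sum_nonneg fun m _ => f0 _)]
    rw [← e2, e1]
    refine (norm_sum_le _ _).trans (sum_le_sum fun a _ => ?_)
    rw [norm_mul, Complex.norm_real, Real.norm_eq_abs, abs_of_nonneg (fh0 a)]
  -- termwise bound
  have hterm : ∀ a ∈ reps (g + r), Fh (g + r) (2 ^ (r + 1)) a * N a ≤
      Fh (g + r) (2 ^ (r + 1)) a * ((1 / 2) ^ g * B) +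
        ((if a = 0 then Fh (g + r) (2 ^ (r + 1)) a * B else 0) +
        (if (((4 ^ g : ℕ) : ℤ)) < |a| then Fh (g + r) (2 ^ (r + 1)) a * B else 0)) := by
    intro a _
    have hF := fh0 a
    have hp : 0 ≤ Fh (g + r) (2 ^ (r + 1)) a * ((1 / 2) ^ g * B) := by positivity
    have hFM : 0 ≤ Fh (g + r) (2 ^ (r + 1)) a * (B : ℝ) := by positivity
    have hb : Fh (g + r) (2 ^ (r + 1)) a * N a ≤ Fh (g + r) (2 ^ (r + 1)) a * B :=
      mul_le_mul_of_nonneg_left (hNM a) hF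
    by_cases ha : a = 0
    · rw [if_pos ha]
      have : 0 ≤ (if (((4 ^ g : ℕ) : ℤ)) < |a| then Fh (g + r) (2 ^ (r + 1)) a * (B : ℝ) else 0) := by
        split_ifs
        · exact hFM
        · exact le_rfl
      linarith
    · rw [if_neg ha]
      by_cases hb2 : (((4 ^ g : ℕ) : ℤ)) < |a|
      · rw [if_pos hb2]
        linarith
      · rw [if_neg hb2]
        have h3 : N a ≤ (1 / 2) ^ g * B := hS a ha (by push_cast at hb2; exact not_lt.1 hb2)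
        have := mul_le_mul_of_nonneg_left h3 hF
        linarith
  have hsum2 := hsum.trans (sum_le_sum hterm)
  rw [sum_add_distrib, sum_add_distrib, ← sum_mul, fmass, one_mul, ← sum_filter, ← sum_filter,
    ← sum_mul, ← sum_mul] at hsum2
  have hz : ∑ a ∈ (reps (g + r)).filter (fun a => a = 0), Fh (g + r) (2 ^ (r + 1)) a ≤
      2 * (1 / 2) ^ g := by
    have h3 : ∑ a ∈ (reps (g + r)).filter (fun a => a = 0), Fh (g + r) (2 ^ (r + 1)) a ≤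
        ∑ a ∈ ({0} : Finset ℤ), Fh (g + r) (2 ^ (r + 1)) a := by
      refine sum_le_sum_of_subset_of_nonneg ?_ (fun a _ _ => fh0 a)
      intro a ha
      rw [mem_filter] at ha
      rw [mem_singleton]
      exact ha.2
    rw [sum_singleton, fhz] at h3
    refine h3.trans (le_of_eq ?_)
    push_cast
    rw [pow_add (2 : ℝ) g r, pow_succ (2 : ℝ) r, one_div, inv_pow]
    field_simp
  have ht := ftail (4 ^ g) (Nat.one_le_pow _ _ (by norm_num))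
  have ht' : ∑ a ∈ (reps (g + r)).filter (fun a => (((4 ^ g : ℕ) : ℤ)) < |a|),
      Fh (g + r) (2 ^ (r + 1)) a ≤ 1 / 4 * (1 / 2) ^ g := by
    refine ht.trans (le_of_eq ?_)
    push_cast
    have e4 : (4 : ℝ) ^ g = 2 ^ g * 2 ^ g := by rw [← mul_pow]; norm_num
    rw [e4, pow_add (2 : ℝ) g r, pow_succ (2 : ℝ) r, one_div (2 : ℝ), inv_pow]
    field_simp
    norm_num
  have hmark := cnt_markov (M := B) (P := fun m => near (g + r) ((2 : ℤ) ^ (g + r - g))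
    (F m)) (f := fun m => Fj (g + r) (2 ^ (r + 1)) (F m)) (c := 1 / 2)
    (fun m _ => f0 _) (fun m _ hm => by
      obtain ⟨z, hz1, hz2⟩ := small_of_near hm
      refine fhalf _ z ?_ hz2
      rw [Nat.add_sub_cancel_left] at hz1
      push_cast
      rw [pow_succ]
      linarith)
  have h5 := mul_le_mul_of_nonneg_right hz hM0
  have h6 := mul_le_mul_of_nonneg_right ht' hM0
  have h7 : (0 : ℝ) ≤ (1 / 2) ^ g * B := by positivity
  linarith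

/-- the exponential sums of a quartic polynomial at the levels `ν <= u <= 3ν + C'`. -/
theorem nb_sum (h4 : W4Stmt) {c : ℕ} (hc : 1 ≤ c) (d e f g' : ℤ) (C' g : ℕ) {b0 Ca : ℕ}
    (hb0 : b0 = 8 * g + 14) (hCa : Ca = C' + 3 * b0 + (6 + 2 * g + c)) {ν u : ℕ}
    (hν : Ca + 4 * b0 + 10 ≤ ν) (hu1 : ν ≤ u) (hu2 : u ≤ 3 * ν + C') {h : ℤ} (h0 : h ≠ 0)
    (hh : |h| ≤ 4 ^ g) :
    ‖∑ n ∈ range (2 ^ ν), ee ((h : ℝ) * ((qua c d e f g' n : ℤ) : ℝ) / 2 ^ u)‖ ≤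
      (1 / 2) ^ g * ((2 ^ ν : ℕ) : ℝ) := by
  obtain ⟨e0, he0⟩ : ∃ e0, e0 = (u - Ca) / 3 := ⟨_, rfl⟩
  have he1 : 3 * e0 + Ca ≤ u := by omega
  have he2 : u ≤ 3 * e0 + Ca + 2 := by omega
  have he3 : b0 ≤ e0 := by omega
  have he4 : e0 + b0 ≤ ν := by omega
  have hh1 : (1 : ℝ) ≤ |(h : ℝ)| := by
    rw [← Int.cast_abs]
    exact_mod_cast Int.one_le_abs h0
  have hh2 : |(h : ℝ)| ≤ 4 ^ g := by
    rw [← Int.cast_abs]
    exact_mod_cast hh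
  have hc1 : (1 : ℝ) ≤ c := by exact_mod_cast hc
  have hc2 : (c : ℝ) ≤ 2 ^ c := by exact_mod_cast (Nat.lt_two_pow_self (n := c)).le
  have key := h4 ((h : ℝ) * c / 2 ^ u) ((h : ℝ) * d / 2 ^ u) ((h : ℝ) * e / 2 ^ u)
    ((h : ℝ) * f / 2 ^ u) ((h : ℝ) * g' / 2 ^ u) (2 ^ ν) (2 ^ e0) (2 ^ (e0 - b0))
    ((1 / 2) ^ (Ca + 3 * b0)) Nat.one_le_two_pow Nat.one_le_two_pow Nat.one_le_two_pow
    (by positivity) ?_ (2 ^ ν) le_rfl
  · -- conclusion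
    have e1 : ∀ n ∈ range (2 ^ ν), ee ((h : ℝ) * ((qua c d e f g' n : ℤ) : ℝ) / 2 ^ u) =
        ee ((h : ℝ) * c / 2 ^ u * (n : ℝ) ^ 4 + (h : ℝ) * d / 2 ^ u * (n : ℝ) ^ 3 +
          (h : ℝ) * e / 2 ^ u * (n : ℝ) ^ 2 + (h : ℝ) * f / 2 ^ u * n + (h : ℝ) * g' / 2 ^ u) := by
      intro n _
      congr 1
      unfold qua
      push_cast
      ring
    rw [sum_congr rfl e1]
    refine le_of_pow_le_pow_left₀ (n := 8) (by norm_num) (by positivity) (key.trans ?_)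
    rw [mul_pow, mul_comm]
    refine mul_le_mul_of_nonneg_right ?_ (by positivity)
    have p1 : (1 : ℝ) / ((1 / 2) ^ (Ca + 3 * b0) * ((2 ^ ν : ℕ) : ℝ)) ≤ (1 / 2) ^ b0 := by
      rw [div_le_iff₀ (by positivity)]
      push_cast
      have h1 : (1 / 2 : ℝ) ^ b0 * ((1 / 2) ^ (Ca + 3 * b0) * 2 ^ ν) =
          (1 / 2 : ℝ) ^ (Ca + 4 * b0) * 2 ^ (Ca + 4 * b0) * 2 ^ (ν - (Ca + 4 * b0)) := by
        have h2 : (2 : ℝ) ^ ν = 2 ^ (Ca + 4 * b0) * 2 ^ (ν - (Ca + 4 * b0)) := by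
          rw [← pow_add]
          congr 1
          omega
        rw [h2]
        ring
      rw [h1, ← mul_pow]
      norm_num
      exact one_le_pow₀ (by norm_num)
    have p2 : (6 : ℝ) * ((2 ^ (e0 - b0) : ℕ) : ℝ) / ((2 ^ e0 : ℕ) : ℝ) = 6 * (1 / 2) ^ b0 := by
      rw [div_eq_iff (by positivity)]
      push_cast
      have h2 : (2 : ℝ) ^ e0 = 2 ^ b0 * 2 ^ (e0 - b0) := by
        rw [← pow_add]
        congr 1
        omega
      rw [h2]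
      have h3 : (1 / 2 : ℝ) ^ b0 * 2 ^ b0 = 1 := by
        rw [← mul_pow]
        norm_num
      calc (6 : ℝ) * 2 ^ (e0 - b0) = 6 * ((1 / 2 : ℝ) ^ b0 * 2 ^ b0) * 2 ^ (e0 - b0) := by
            rw [h3]; ring
        _ = _ := by ring
    have p3 : ((2 ^ e0 : ℕ) : ℝ) / ((2 ^ ν : ℕ) : ℝ) ≤ (1 / 2) ^ b0 := by
      rw [div_le_iff₀ (by positivity)]
      push_cast
      have h2 : (2 : ℝ) ^ ν = 2 ^ b0 * 2 ^ (ν - b0) := by
        rw [← pow_add]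
        congr 1
        omega
      have h3 : (1 / 2 : ℝ) ^ b0 * 2 ^ b0 = 1 := by
        rw [← mul_pow]
        norm_num
      rw [h2, ← mul_assoc, h3, one_mul]
      exact pow_le_pow_right₀ (by norm_num) (by omega)
    have p4 : (1 / 2 : ℝ) ^ b0 = ((1 / 2) ^ g) ^ 8 * (1 / 16384) := by
      rw [hb0, pow_add, ← pow_mul, mul_comm g 8]
      norm_num
    have p5 : (0 : ℝ) ≤ ((1 / 2) ^ g) ^ 8 := by positivity
    rw [p2]
    linarith
  · -- the numbers `24 k1 k2 k3 t4` do not reach `1/2`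
    intro k1 k2 k3 hk1 hk1' hk2 hk2' hk3 hk3'
    have hk1r : (2 : ℝ) ^ (e0 - b0) ≤ k1 := by exact_mod_cast hk1
    have hk2r : (2 : ℝ) ^ (e0 - b0) ≤ k2 := by exact_mod_cast hk2
    have hk3r : (2 : ℝ) ^ (e0 - b0) ≤ k3 := by exact_mod_cast hk3
    have hk1s : (k1 : ℝ) ≤ 2 ^ e0 := by exact_mod_cast hk1'.le
    have hk2s : (k2 : ℝ) ≤ 2 ^ e0 := by exact_mod_cast hk2'.le
    have hk3s : (k3 : ℝ) ≤ 2 ^ e0 := by exact_mod_cast hk3'.le
    have habs : |24 * (k1 : ℝ) * k2 * k3 * ((h : ℝ) * c / 2 ^ u)| =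
        24 * ((k1 : ℝ) * k2 * k3) * (|(h : ℝ)| * c) / 2 ^ u := by
      rw [abs_mul, abs_div, abs_mul (h : ℝ), abs_of_nonneg (by positivity : (0:ℝ) ≤ 24 * (k1 : ℝ) * k2 * k3),
        abs_of_nonneg (by positivity : (0:ℝ) ≤ (c : ℝ)),
        abs_of_nonneg (by positivity : (0:ℝ) ≤ (2 : ℝ) ^ u)]
      ring
    have hup : |24 * (k1 : ℝ) * k2 * k3 * ((h : ℝ) * c / 2 ^ u)| ≤ 1 / 2 := by
      rw [habs, div_le_iff₀ (by positivity)]
      have h1 : (k1 : ℝ) * k2 * k3 ≤ 2 ^ e0 * 2 ^ e0 * 2 ^ e0 := by gcongr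
      have h2 : |(h : ℝ)| * c ≤ 4 ^ g * 2 ^ c := by gcongr
      have h3 : (24 : ℝ) * ((k1 : ℝ) * k2 * k3) * (|(h : ℝ)| * c) ≤
          24 * (2 ^ e0 * 2 ^ e0 * 2 ^ e0) * (4 ^ g * 2 ^ c) := by gcongr
      have h4' : (4 : ℝ) ^ g = 2 ^ (2 * g) := by rw [pow_mul]; norm_num
      have h5 : (24 : ℝ) * (2 ^ e0 * 2 ^ e0 * 2 ^ e0) * (4 ^ g * 2 ^ c) =
          24 * 2 ^ (3 * e0 + (2 * g + c)) := by
        rw [h4']
        ring
      have h6 : (2 : ℝ) ^ (3 * e0 + (2 * g + c)) * 2 ^ 6 ≤ 2 ^ u := by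
        rw [← pow_add]
        exact pow_le_pow_right₀ (by norm_num) (by omega)
      rw [h5] at h3
      have h7 : (0 : ℝ) ≤ 2 ^ (3 * e0 + (2 * g + c)) := by positivity
      linarith
    have hlow : (1 / 2 : ℝ) ^ (Ca + 3 * b0) ≤ |24 * (k1 : ℝ) * k2 * k3 * ((h : ℝ) * c / 2 ^ u)| := by
      rw [habs, le_div_iff₀ (by positivity)]
      have h1 : (2 : ℝ) ^ (e0 - b0) * 2 ^ (e0 - b0) * 2 ^ (e0 - b0) ≤ (k1 : ℝ) * k2 * k3 := by
        gcongr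
      have h2 : (1 : ℝ) * 1 ≤ |(h : ℝ)| * c := by gcongr
      have h3 : (24 : ℝ) * (2 ^ (e0 - b0) * 2 ^ (e0 - b0) * 2 ^ (e0 - b0)) * (1 * 1) ≤
          24 * ((k1 : ℝ) * k2 * k3) * (|(h : ℝ)| * c) := by gcongr
      have h4' : (2 : ℝ) ^ (e0 - b0) * 2 ^ (e0 - b0) * 2 ^ (e0 - b0) = 2 ^ (3 * (e0 - b0)) := by
        ring
      have h5 : (2 : ℝ) ^ u ≤ 2 ^ (Ca + 3 * b0) * (2 ^ (3 * (e0 - b0)) * 2 ^ 2) := by
        rw [← pow_add, ← pow_add]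
        exact pow_le_pow_right₀ (by norm_num) (by omega)
      have h6 : (1 / 2 : ℝ) ^ (Ca + 3 * b0) * 2 ^ u ≤ 2 ^ (3 * (e0 - b0)) * 2 ^ 2 := by
        calc (1 / 2 : ℝ) ^ (Ca + 3 * b0) * 2 ^ u ≤ (1 / 2 : ℝ) ^ (Ca + 3 * b0) *
              (2 ^ (Ca + 3 * b0) * (2 ^ (3 * (e0 - b0)) * 2 ^ 2)) := by gcongr
          _ = ((1 / 2 : ℝ) ^ (Ca + 3 * b0) * 2 ^ (Ca + 3 * b0)) *
              (2 ^ (3 * (e0 - b0)) * 2 ^ 2) := by ring
          _ = _ := by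
              rw [← mul_pow]
              norm_num
      rw [h4'] at h3
      have h7 : (0 : ℝ) ≤ 2 ^ (3 * (e0 - b0)) := by positivity
      linarith
    refine hlow.trans (le_of_eq ?_)
    -- `nn x = |x|` when `|x| <= 1/2`
    exact (nb_nn_eq_abs hup).symm

/-- (NB) -/
theorem nb (h4 : W4Stmt) : NBStmt := by
  intro c d e f g' C' ε hc hε
  obtain ⟨G1, hG1⟩ := exists_pow_lt_of_lt_one (show (0 : ℝ) < ε / 8 by positivity)
    (show (1 / 2 : ℝ) < 1 by norm_num)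
  refine ⟨max 2 G1, fun g hg => ?_⟩
  have hg2 : 2 ≤ g := le_trans (le_max_left _ _) hg
  have hgG : G1 ≤ g := le_trans (le_max_right _ _) hg
  have hsm : 8 * (1 / 2 : ℝ) ^ g ≤ ε := by
    have h1 : (1 / 2 : ℝ) ^ g ≤ (1 / 2) ^ G1 := pow_le_pow_of_le_one (by norm_num) (by norm_num) hgG
    linarith
  refine ⟨(C' + 3 * (8 * g + 14) + (6 + 2 * g + c)) + 4 * (8 * g + 14) + 10, ?_⟩
  intro ν hν u hu1 hu2
  obtain ⟨r, rfl⟩ : ∃ r, u = g + r := ⟨u - g, by omega⟩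
  have h1 := nb_det (B := 2 ^ ν) (g := g) (r := r) (F := fun n : ℕ => qua c d e f g' n) hg2
    (fun h h0 hh => nb_sum h4 hc d e f g' C' g rfl rfl hν hu1 hu2 h0 hh)
  refine h1.trans ?_
  push_cast
  have h2 : (0 : ℝ) ≤ 2 ^ ν := by positivity
  nlinarith [mul_le_mul_of_nonneg_right hsm h2]

end Pool.Agent.H20.T4
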